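import Pool.Agent.Helper72.GP.GoalsB

/-!
# Project GP (MP_c9dfb5_co), packet CURV

The case in which (B2) fails.
-/

set_option autoImplicit false

namespace Pool.Agent.Helper13.GP

open Pool.Agent.Helper72.GP
open Finset Polynomial
open scoped Polynomial.Bivariate Classical

noncomputable section

theorem hasGP_mono_sub {P Q : Finset Pt} {r s : ℝ} (h : HasGP P r) (hPQ : P ⊆ Q) (hs : s ≤ r) :
    HasGP Q s := by
  obtain ⟨S, hS, hG, hr⟩ := h
  exact ⟨S, hS.trans hPQ, hG, hs.trans hr⟩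

theorem thin_mono {t : ℕ} {P Q : Finset Pt} (h : Thin t P) (hQ : Q ⊆ P) : Thin t Q :=
  fun x hx y hy hxy => (card_le_card (filter_subset_filter _ hQ)).trans
    (h x (hQ hx) y (hQ hy) hxy)

/-- powers of large numbers are large -/
theorem exists_pow_large' (ε K : ℝ) (hε : 0 < ε) :
    ∃ n0 : ℕ, ∀ n : ℕ, n0 ≤ n → K ≤ (n : ℝ) ^ ε := by
  have h := ((tendsto_rpow_atTop hε).comp tendsto_natCast_atTop_atTop).eventually_ge_atTop K
  exact Filter.eventually_atTop.mp h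

/-- PACKET GP-CURV. -/
theorem curv (hLEMC : LEMC) (hTRANS : TRANS) (hLEMZ : LEMZ) : CURV := by
  intro C δ hC hδ hδ'
  set K : ℝ := 27648 * (C : ℝ) with hK
  have hC1 : (1 : ℝ) ≤ C := by exact_mod_cast hC
  have hKpos : 0 < K := by positivity
  obtain ⟨n1, hn1⟩ := exists_pow_large' (1 - δ - δ / 200) (480 * K ^ 4) (by linarith)
  obtain ⟨n2, hn2⟩ := exists_pow_large' (1 / 4 - 9 * δ / 8) (1024 * K ^ 5) (by linarith)
  refine ⟨n1 + n2 + 1, fun P N t J hP hB hN hth ht htn hJ h x j hh hx hcls hj hfree => ?_⟩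
  set n : ℝ := (P.card : ℝ) with hn
  have hn1' : (1 : ℝ) ≤ n := by
    rw [hn]
    exact_mod_cast (by omega : 1 ≤ P.card)
  have hn0 : (0 : ℝ) < n := by linarith
  obtain ⟨Q, hQc, hQB, hQt, hQgp, hQf⟩ := hTRANS P N h x hB hh hx
  have hQcard : n ^ (1 - δ / 2) ≤ (Q.card : ℝ) := by rwa [hQc]
  have hQpos : (0 : ℝ) < Q.card := lt_of_lt_of_le (Real.rpow_pos_of_pos hn0 _) hQcard
  have hQne : Q.Nonempty := card_pos.mp (by exact_mod_cast hQpos)
  have hQB' : Box N Q := by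
    intro p hp
    obtain ⟨h1, h2, h3, h4⟩ := hQB p hp
    have h5 : ((N / h : ℕ) : ℤ) ≤ N := by exact_mod_cast Nat.div_le_self N h
    exact ⟨h1, h2.trans h5, h3, h4.trans h5⟩
  have hnf : ¬ FreeC Q N (2 ^ j) := fun hf => hfree (hQf _ hf)
  rcases hLEMC Q N (2 ^ j) hQne hQB' hN Nat.one_le_two_pow with h1 | h1
  swap
  · exact absurd h1 hnf
  obtain ⟨c, hc, hcard⟩ := h1
  set A1 := Q.filter (fun p => evc c p = 0) with hA1
  have hA1Q : A1 ⊆ Q := filter_subset _ _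
  -- the power of two
  have hpj : (0 : ℝ) < (2 : ℝ) ^ j := by positivity
  have h2j : (2 : ℝ) ^ j ≤ K * n ^ (δ / 8) :=
    (pow_le_pow_right₀ (by norm_num) hj).trans hJ
  have hcard' : (Q.card : ℝ) / 2 ^ j < (A1.card : ℝ) := by
    have : (((2 ^ j : ℕ) : ℝ)) = 2 ^ j := by push_cast; rfl
    rwa [this] at hcard
  -- lower bound
  have hlow : n ^ (1 - 5 * δ / 8) / K ≤ (A1.card : ℝ) := by
    refine le_trans ?_ hcard'.le
    have hp8 : (0 : ℝ) < n ^ (δ / 8) := Real.rpow_pos_of_pos hn0 _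
    rw [div_le_div_iff₀ hKpos hpj]
    have h3 : n ^ (1 - δ / 2) = n ^ (1 - 5 * δ / 8) * n ^ (δ / 8) := by
      rw [← Real.rpow_add hn0]
      congr 1
      ring
    have h4 : (0 : ℝ) < n ^ (1 - 5 * δ / 8) := Real.rpow_pos_of_pos hn0 _
    calc n ^ (1 - 5 * δ / 8) * 2 ^ j ≤ n ^ (1 - 5 * δ / 8) * (K * n ^ (δ / 8)) :=
          mul_le_mul_of_nonneg_left h2j h4.le
      _ = n ^ (1 - δ / 2) * K := by
          rw [h3]
          ring
      _ ≤ Q.card * K := mul_le_mul_of_nonneg_right hQcard hKpos.le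
  have hA1pos : (0 : ℝ) < A1.card :=
    lt_of_lt_of_le (div_pos (Real.rpow_pos_of_pos hn0 _) hKpos) hlow
  have hm : ((2 * 2 ^ j : ℕ) : ℝ) ≤ 2 * (K * n ^ (δ / 8)) := by
    push_cast
    linarith
  have hm0 : (0 : ℝ) < ((2 * 2 ^ j : ℕ) : ℝ) := by positivity
  -- `60 m³ t ≤ |A1|`
  have hcond : 60 * (2 * 2 ^ j) ^ 3 * t ≤ A1.card := by
    have h3 : (60 : ℝ) * ((2 * 2 ^ j : ℕ) : ℝ) ^ 3 * t ≤ A1.card := by
      refine le_trans ?_ hlow
      rw [le_div_iff₀ hKpos]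
      have h4 : ((2 * 2 ^ j : ℕ) : ℝ) ^ 3 ≤ (2 * (K * n ^ (δ / 8))) ^ 3 :=
        pow_le_pow_left₀ hm0.le hm 3
      have h5 : (2 * (K * n ^ (δ / 8))) ^ 3 = 8 * K ^ 3 * n ^ (3 * δ / 8) := by
        have : n ^ (3 * δ / 8) = (n ^ (δ / 8)) ^ 3 := by
          rw [← Real.rpow_natCast (n ^ (δ / 8)) 3, ← Real.rpow_mul hn0.le]
          congr 1
          push_cast
          ring
        rw [this]
        ring
      rw [h5] at h4
      have h6 := hn1 P.card (by omega)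
      rw [← hn] at h6
      have h7 : n ^ (1 - 5 * δ / 8) = n ^ (1 - δ - δ / 200) * n ^ (3 * δ / 8) * n ^ (δ / 200) := by
        rw [← Real.rpow_add hn0, ← Real.rpow_add hn0]
        congr 1
        ring
      have h8 : (0 : ℝ) < n ^ (3 * δ / 8) := Real.rpow_pos_of_pos hn0 _
      have h9 : (0 : ℝ) < n ^ (δ / 200) := Real.rpow_pos_of_pos hn0 _
      calc (60 : ℝ) * ((2 * 2 ^ j : ℕ) : ℝ) ^ 3 * t * K
          ≤ 60 * (8 * K ^ 3 * n ^ (3 * δ / 8)) * n ^ (δ / 200) * K := by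
            gcongr
        _ = 480 * K ^ 4 * (n ^ (3 * δ / 8) * n ^ (δ / 200)) := by ring
        _ ≤ n ^ (1 - δ - δ / 200) * (n ^ (3 * δ / 8) * n ^ (δ / 200)) :=
            mul_le_mul_of_nonneg_right h6 (by positivity)
        _ = n ^ (1 - 5 * δ / 8) := by
            rw [h7]
            ring
    exact_mod_cast h3
  have hgp := hLEMZ (2 * 2 ^ j) t c A1 (by have := Nat.one_le_two_pow (n := j); omega) ht hc
    (fun p hp => (mem_filter.mp hp).2) (thin_mono (hQt t hth) hA1Q) (by exact_mod_cast hA1pos)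
    hcond
  refine hQgp _ (hasGP_mono_sub hgp hA1Q ?_)
  -- `|A1| / (64 m⁴) ≥ n^(3/4)`
  rw [le_div_iff₀ (by positivity)]
  refine le_trans ?_ hlow
  rw [le_div_iff₀ hKpos]
  have h4 : ((2 * 2 ^ j : ℕ) : ℝ) ^ 4 ≤ (2 * (K * n ^ (δ / 8))) ^ 4 :=
    pow_le_pow_left₀ hm0.le hm 4
  have h5 : (2 * (K * n ^ (δ / 8))) ^ 4 = 16 * K ^ 4 * n ^ (δ / 2) := by
    have : n ^ (δ / 2) = (n ^ (δ / 8)) ^ 4 := by
      rw [← Real.rpow_natCast (n ^ (δ / 8)) 4, ← Real.rpow_mul hn0.le]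
      congr 1
      push_cast
      ring
    rw [this]
    ring
  rw [h5] at h4
  have h6 := hn2 P.card (by omega)
  rw [← hn] at h6
  have h7 : n ^ (1 - 5 * δ / 8) = n ^ (1 / 4 - 9 * δ / 8) * n ^ ((3 : ℝ) / 4) * n ^ (δ / 2) := by
    rw [← Real.rpow_add hn0, ← Real.rpow_add hn0]
    congr 1
    ring
  have h8 : (0 : ℝ) < n ^ ((3 : ℝ) / 4) := Real.rpow_pos_of_pos hn0 _
  have h9 : (0 : ℝ) < n ^ (δ / 2) := Real.rpow_pos_of_pos hn0 _
  calc n ^ ((3 : ℝ) / 4) * (64 * ((2 * 2 ^ j : ℕ) : ℝ) ^ 4) * K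
      ≤ n ^ ((3 : ℝ) / 4) * (64 * (16 * K ^ 4 * n ^ (δ / 2))) * K := by
        gcongr
    _ = 1024 * K ^ 5 * (n ^ ((3 : ℝ) / 4) * n ^ (δ / 2)) := by ring
    _ ≤ n ^ (1 / 4 - 9 * δ / 8) * (n ^ ((3 : ℝ) / 4) * n ^ (δ / 2)) :=
        mul_le_mul_of_nonneg_right h6 (by positivity)
    _ = n ^ (1 - 5 * δ / 8) := by
        rw [h7]
        ring

end

end Pool.Agent.Helper13.GP
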