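import Pool.Agent.Helper72.GP.GoalsB

/-!
# Project GP (MP_c9dfb5_co), packet LEMD

Points on a curve of low degree: a large subset in general position.
-/

set_option autoImplicit false

namespace Pool.Agent.Helper13.GP

open Pool.Agent.Helper72.GP
open Finset Polynomial
open scoped Polynomial.Bivariate Classical

noncomputable section

theorem thinR_mono {t : ℕ} {P Q : Finset (ℝ × ℝ)} (h : ThinR t P) (hQ : Q ⊆ P) : ThinR t Q :=
  fun x hx y hy hxy => (card_le_card (filter_subset_filter _ hQ)).trans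
    (h x (hQ hx) y (hQ hy) hxy)

theorem evr_dvd {f g : ℝ[X][Y]} (h : f ∣ g) {x y : ℝ} (hf : evr f x y = 0) : evr g x y = 0 := by
  obtain ⟨q, rfl⟩ := h
  unfold evr at hf ⊢
  rw [evalEval_mul, hf, zero_mul]

/-- the zeros of `f(x, ·)` -/
theorem mem_roots_map {f : ℝ[X][Y]} {x y : ℝ} (hx : (f.leadingCoeff).eval x ≠ 0) :
    y ∈ (f.map (evalRingHom x)).roots.toFinset ↔ evr f x y = 0 := by
  have hne : f.map (evalRingHom x) ≠ 0 := by
    intro h0
    apply hx
    have h1 := congrArg (fun p : ℝ[X] => p.coeff f.natDegree) h0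
    simpa [coeff_map] using h1
  rw [Multiset.mem_toFinset, mem_roots hne, IsRoot.def, map_evalRingHom_eval]
  rfl

theorem rk_lt_of_lt {f : ℝ[X][Y]} {x y y' : ℝ} (hx : (f.leadingCoeff).eval x ≠ 0)
    (hy : evr f x y = 0) (hlt : y < y') : rk f x y < rk f x y' := by
  unfold rk
  refine card_lt_card ?_
  rw [ssubset_iff_of_subset]
  · exact ⟨y, mem_filter.mpr ⟨(mem_roots_map hx).mpr hy, hlt⟩, fun h =>
      lt_irrefl _ (mem_filter.mp h).2⟩
  · intro z hz
    rw [mem_filter] at hz ⊢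
    exact ⟨hz.1, hz.2.trans hlt⟩

theorem rk_inj {f : ℝ[X][Y]} {x y y' : ℝ} (hx : (f.leadingCoeff).eval x ≠ 0)
    (hy : evr f x y = 0) (hy' : evr f x y' = 0) (h : rk f x y = rk f x y') : y = y' := by
  rcases lt_trichotomy y y' with h1 | h1 | h1
  · exact absurd h (rk_lt_of_lt hx hy h1).ne
  · exact h1
  · exact absurd h (rk_lt_of_lt hx hy' h1).ne'

theorem rk_lt {f : ℝ[X][Y]} {x y : ℝ} {d : ℕ} (hd : f.natDegree ≤ d)
    (hx : (f.leadingCoeff).eval x ≠ 0) (hy : evr f x y = 0) : rk f x y < d := by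
  have h1 : rk f x y < (f.map (evalRingHom x)).roots.toFinset.card := by
    unfold rk
    refine card_lt_card ?_
    rw [ssubset_iff_of_subset (filter_subset _ _)]
    exact ⟨y, (mem_roots_map hx).mpr hy, fun h => lt_irrefl _ (mem_filter.mp h).2⟩
  have h2 : (f.map (evalRingHom x)).roots.toFinset.card ≤ f.natDegree :=
    (Multiset.toFinset_card_le _).trans ((card_roots' _).trans natDegree_map_le)
  omega

/-- PACKET GP-LEMD. -/
theorem lemd (hFAC : FAC) (hVERT : VERT) (hELIM : ELIM) (hHDEG : HDEG) (hBRAN : BRAN) (hSEC : SEC)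
    (hLINE : LINE) : LEMD := by
  intro d t F A hd ht hF hdeg hA hthin hpos hcard
  obtain ⟨f, hirr, hbf, hAf⟩ := hFAC d F A hd hF hdeg (card_pos.mp hpos) hA
  set A0 := A.filter (fun p => evr f p.1 p.2 = 0) with hA0
  have hA0A : A0 ⊆ A := filter_subset _ _
  have hthin0 : ThinR t A0 := thinR_mono hthin hA0A
  have hz0 : ∀ p ∈ A0, evr f p.1 p.2 = 0 := fun p hp => (mem_filter.mp hp).2
  have hc0 : 30 * d ^ 2 * t ≤ A0.card := by
    have h1 : 2 * d * (30 * d ^ 2 * t) ≤ 2 * d * A0.card := by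
      calc 2 * d * (30 * d ^ 2 * t) = 60 * d ^ 3 * t := by ring
        _ ≤ A.card := hcard
        _ ≤ _ := hAf
    exact Nat.le_of_mul_le_mul_left h1 (by omega)
  have hdd : d ≤ d ^ 2 := by nlinarith
  have hdt : 1 ≤ d ^ 2 * t := Nat.one_le_iff_ne_zero.mpr (by positivity)
  -- degree in `y`
  have hnat : 1 ≤ f.natDegree := by
    by_contra hcon
    have h0 : f.natDegree = 0 := by omega
    have hfC : f = C (f.coeff 0) := eq_C_of_natDegree_eq_zero h0
    have hr0 : f.coeff 0 ≠ 0 := by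
      intro h
      rw [h, C_0] at hfC
      exact hirr.ne_zero hfC
    have hev : ∀ x y, evr f x y = (f.coeff 0).eval x := by
      intro x y
      unfold evr
      conv_lhs => rw [hfC]
      exact evalEval_C x y (f.coeff 0)
    have h1 := hVERT (f.coeff 0) t A0 hr0 (by omega) hthin0 fun p hp => by
      rw [← hev p.1 p.2]
      exact hz0 p hp
    have h2 : t * (f.coeff 0).natDegree ≤ t * d := Nat.mul_le_mul_left t (hbf.2 0)
    nlinarith
  -- the leading coefficient
  set a := f.leadingCoeff with ha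
  have ha0 : a ≠ 0 := leadingCoeff_ne_zero.mpr hirr.ne_zero
  have had : a.natDegree ≤ d := hbf.2 _
  -- `r1`
  obtain ⟨hb1, _, hbh⟩ := hHDEG.1 d f hbf
  obtain ⟨r1, hr10, hr1d, hr1⟩ := hELIM f (dY f) d hirr hnat (hHDEG.2 f hirr hnat) hbf.2 hb1.2
  have hr1d' : r1.natDegree ≤ 2 * d ^ 2 := by
    refine hr1d.trans ?_
    have h1 := hbf.1
    have h2 := hb1.1
    calc (f.natDegree + (dY f).natDegree) * d ≤ (d + d) * d := Nat.mul_le_mul_right d (by omega)
      _ = 2 * d ^ 2 := by ring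
  have hgood : ∀ α β : ℝ, (∀ x ∈ Set.Icc α β, a.eval x ≠ 0 ∧ r1.eval x ≠ 0) → Good f α β := by
    intro α β h x hx
    refine ⟨(h x hx).1, fun y hy hy' => (h x hx).2 (hr1 x y hy hy')⟩
  -- `f` does not divide `hes f`
  have hnd : ¬ f ∣ hes f := by
    intro hdiv
    have hs0 : a * r1 ≠ 0 := mul_ne_zero ha0 hr10
    have hex : ∃ p ∈ A0, (a * r1).eval p.1 ≠ 0 := by
      by_contra hcon
      push Not at hcon
      have h1 := hVERT (a * r1) t A0 hs0 (by omega) hthin0 hcon
      have h2 : (a * r1).natDegree ≤ 3 * d ^ 2 := by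
        refine natDegree_mul_le.trans ?_
        omega
      have h3 := Nat.mul_le_mul_left t h2
      nlinarith
    obtain ⟨p, hp, hps⟩ := hex
    have hopen : IsOpen {x : ℝ | (a * r1).eval x ≠ 0} :=
      isOpen_ne.preimage (a * r1).continuous
    obtain ⟨ε, hε, hball⟩ := Metric.isOpen_iff.mp hopen p.1 hps
    have hlt : p.1 < p.1 + ε / 2 := by linarith
    have hIcc : ∀ x ∈ Set.Icc p.1 (p.1 + ε / 2), (a * r1).eval x ≠ 0 := by
      intro x hx
      refine hball ?_
      rw [Metric.mem_ball, Real.dist_eq, abs_lt]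
      constructor
      · linarith [hx.1]
      · linarith [hx.2]
    have hG := hgood p.1 (p.1 + ε / 2) fun x hx => by
      have := hIcc x hx
      rw [eval_mul] at this
      exact ⟨left_ne_zero_of_mul this, right_ne_zero_of_mul this⟩
    obtain ⟨ψ, hψc, hψ0, hψz, hψu⟩ := hBRAN f p.1 (p.1 + ε / 2) p.2 hlt.le hG (hz0 p hp)
    obtain ⟨u, v, huv⟩ := (hSEC f p.1 (p.1 + ε / 2) ψ hlt hψc
      (fun x hx => ⟨hψz x hx, (hG x hx).2 _ (hψz x hx)⟩)).2
      (fun x hx => evr_dvd hdiv (hψz x hx))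
    have hline := hLINE f u v p.1 (p.1 + ε / 2) hirr hlt (fun x hx => by
      rw [← huv x hx]
      exact hψz x hx)
    have h2 : 1 < A0.card := by nlinarith
    obtain ⟨y, hy, z, hz, hyz⟩ := one_lt_card.mp h2
    have h3 := hthin0 y hy z hz hyz
    have h4 : A0.filter (fun w => ColR y z w) = A0 := by
      refine filter_true_of_mem fun w hw => ?_
      unfold ColR
      rw [hline _ _ (hz0 y hy), hline _ _ (hz0 z hz), hline _ _ (hz0 w hw)]
      ring
    rw [h4] at h3
    nlinarith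
  -- `r2`
  obtain ⟨r2, hr20, hr2d, hr2⟩ := hELIM f (hes f) (3 * d) hirr hnat hnd
    (fun j => (hbf.2 j).trans (by omega)) hbh.2
  have hr2d' : r2.natDegree ≤ 12 * d ^ 2 := by
    refine hr2d.trans ?_
    have h1 := hbf.1
    have h2 := hbh.1
    calc (f.natDegree + (hes f).natDegree) * (3 * d) ≤ (d + 3 * d) * (3 * d) :=
          Nat.mul_le_mul_right _ (by omega)
      _ = 12 * d ^ 2 := by ring
  -- the bad points
  set s := a * r1 * r2 with hs
  have hs0 : s ≠ 0 := mul_ne_zero (mul_ne_zero ha0 hr10) hr20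
  have hsd : s.natDegree ≤ 15 * d ^ 2 := by
    have h1 : s.natDegree ≤ (a * r1).natDegree + r2.natDegree := natDegree_mul_le
    have h2 : (a * r1).natDegree ≤ a.natDegree + r1.natDegree := natDegree_mul_le
    omega
  have hsev : ∀ x, s.eval x ≠ 0 → (a.eval x ≠ 0 ∧ r1.eval x ≠ 0) ∧ r2.eval x ≠ 0 := by
    intro x hx
    rw [hs, eval_mul, eval_mul] at hx
    exact ⟨⟨left_ne_zero_of_mul (left_ne_zero_of_mul hx),
      right_ne_zero_of_mul (left_ne_zero_of_mul hx)⟩, right_ne_zero_of_mul hx⟩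
  set Bad := s.roots.toFinset with hBad
  have hBadm : ∀ x, x ∈ Bad ↔ s.eval x = 0 := by
    intro x
    rw [hBad, Multiset.mem_toFinset, mem_roots hs0, IsRoot.def]
  have hBadc : Bad.card ≤ 15 * d ^ 2 :=
    (Multiset.toFinset_card_le _).trans ((card_roots' _).trans hsd)
  set A1 := A0.filter (fun p => ¬ s.eval p.1 = 0) with hA1
  have hA1c : A0.card ≤ 2 * A1.card := by
    have h1 := hVERT s t (A0.filter (fun p => s.eval p.1 = 0)) hs0 (by omega)
      (thinR_mono hthin0 (filter_subset _ _)) (fun p hp => (mem_filter.mp hp).2)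
    have h2 : (A0.filter (fun p => s.eval p.1 = 0)).card + A1.card = A0.card :=
      card_filter_add_card_filter_not _
    have h3 : t * s.natDegree ≤ t * (15 * d ^ 2) := Nat.mul_le_mul_left t hsd
    have h4 : 2 * (t * (15 * d ^ 2)) = 30 * d ^ 2 * t := by ring
    omega
  have hz1 : ∀ p ∈ A1, evr f p.1 p.2 = 0 := fun p hp => hz0 p (mem_filter.mp hp).1
  have hs1 : ∀ p ∈ A1, s.eval p.1 ≠ 0 := fun p hp => (mem_filter.mp hp).2
  -- the colouring
  let col : ℝ × ℝ → ℕ × ℕ := fun p => ((Bad.filter (fun b => b < p.1)).card, rk f p.1 p.2)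
  let T : Finset (ℕ × ℕ) := range (15 * d ^ 2 + 1) ×ˢ range d
  have hT : ∀ p ∈ A1, col p ∈ T := by
    intro p hp
    refine mem_product.mpr ⟨mem_range.mpr ?_, mem_range.mpr ?_⟩
    · have : (Bad.filter (fun b => b < p.1)).card ≤ Bad.card := card_le_card (filter_subset _ _)
      change (Bad.filter (fun b => b < p.1)).card < _
      omega
    · exact rk_lt hbf.1 ((hsev _ (hs1 p hp)).1.1) (hz1 p hp)
  have hTc : T.card ≤ 16 * d ^ 3 := by
    rw [card_product, card_range, card_range]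
    nlinarith
  have hTne : T.Nonempty := ⟨(0, 0), mem_product.mpr ⟨mem_range.mpr (by omega),
    mem_range.mpr (by omega)⟩⟩
  obtain ⟨c, _, hmax⟩ := exists_max_image T (fun c => (A1.filter (fun p => col p = c)).card) hTne
  have hbig : A1.card ≤ (A1.filter (fun p => col p = c)).card * T.card :=
    card_le_mul_card_image_of_maps_to hT _ fun b hb => hmax b hb
  set S := A1.filter (fun p => col p = c) with hS
  have hSA1 : S ⊆ A1 := filter_subset _ _
  have hScol : ∀ p ∈ S, ∀ q ∈ S, col p = col q := fun p hp q hq => by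
    rw [(mem_filter.mp hp).2, (mem_filter.mp hq).2]
  refine ⟨S, hSA1.trans ((filter_subset _ _).trans hA0A), ?_, ?_⟩
  · -- three points in increasing order
    have key : ∀ p ∈ S, ∀ q ∈ S, ∀ r ∈ S, p.1 < q.1 → q.1 < r.1 → ¬ ColR p q r := by
      intro p hp q hq r hr hpq hqr hcol
      have hpr : p.1 < r.1 := hpq.trans hqr
      have hnob : ∀ x ∈ Set.Icc p.1 r.1, s.eval x ≠ 0 := by
        intro x hx hx0
        have hxp : p.1 ≠ x := fun h => hs1 p (hSA1 hp) (by rw [h]; exact hx0)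
        have hxr : x ≠ r.1 := fun h => hs1 r (hSA1 hr) (by rw [← h]; exact hx0)
        have h1 : p.1 < x := lt_of_le_of_ne hx.1 hxp
        have h2 : x < r.1 := lt_of_le_of_ne hx.2 hxr
        have h3 : (Bad.filter (fun b => b < p.1)).card = (Bad.filter (fun b => b < r.1)).card :=
          congrArg Prod.fst (hScol p hp r hr)
        have h4 : (Bad.filter (fun b => b < p.1)).card < (Bad.filter (fun b => b < r.1)).card := by
          refine card_lt_card ?_
          rw [ssubset_iff_of_subset]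
          · exact ⟨x, mem_filter.mpr ⟨(hBadm x).mpr hx0, h2⟩, fun h =>
              lt_asymm h1 (mem_filter.mp h).2⟩
          · intro b hb
            rw [mem_filter] at hb ⊢
            exact ⟨hb.1, hb.2.trans hpr⟩
        omega
      have hG : Good f p.1 r.1 := hgood _ _ fun x hx => (hsev x (hnob x hx)).1
      obtain ⟨ψ, hψc, hψ0, hψz, hψu⟩ := hBRAN f p.1 r.1 p.2 hpr.le hG (hz1 p (hSA1 hp))
      have hrk : ∀ w ∈ S, rk f w.1 w.2 = rk f p.1 p.2 := fun w hw =>
        congrArg Prod.snd (hScol w hw p hp)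
      have hq2 : q.2 = ψ q.1 := hψu q.1 ⟨hpq.le, hqr.le⟩ q.2 (hz1 q (hSA1 hq)) (hrk q hq)
      have hr2' : r.2 = ψ r.1 := hψu r.1 ⟨hpr.le, le_refl _⟩ r.2 (hz1 r (hSA1 hr)) (hrk r hr)
      obtain ⟨ξ, hξ, hξh⟩ := (hSEC f p.1 r.1 ψ hpr hψc
        (fun x hx => ⟨hψz x hx, (hG x hx).2 _ (hψz x hx)⟩)).1 p.1 q.1 r.1 le_rfl hpq hqr le_rfl
        (by
          rw [hψ0, ← hq2, ← hr2']
          exact hcol)
      exact (hsev ξ (hnob ξ hξ)).2 (hr2 ξ (ψ ξ) (hψz ξ hξ) hξh)
    have hinj : ∀ p ∈ S, ∀ q ∈ S, p ≠ q → p.1 ≠ q.1 := by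
      intro p hp q hq hne h1
      apply hne
      have hrk : rk f p.1 p.2 = rk f q.1 q.2 := congrArg Prod.snd (hScol p hp q hq)
      rw [← h1] at hrk
      have hzq := hz1 q (hSA1 hq)
      rw [← h1] at hzq
      exact Prod.ext h1 (rk_inj (hsev _ (hs1 p (hSA1 hp))).1.1 (hz1 p (hSA1 hp)) hzq hrk)
    intro x hx y hy z hz hxy hyz hxz hcol
    have e1 := hinj x hx y hy hxy
    have e2 := hinj y hy z hz hyz
    have e3 := hinj x hx z hz hxz
    unfold ColR at key hcol
    rcases lt_or_gt_of_ne e1 with h1 | h1 <;> rcases lt_or_gt_of_ne e2 with h2 | h2 <;>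
      rcases lt_or_gt_of_ne e3 with h3 | h3
    · exact key x hx y hy z hz h1 h2 hcol
    · exact absurd (h1.trans h2) (lt_asymm h3)
    · exact key x hx z hz y hy h3 h2 (by linear_combination -hcol)
    · exact key z hz x hx y hy h3 h1 (by linear_combination hcol)
    · exact key y hy x hx z hz h1 h3 (by linear_combination -hcol)
    · exact key y hy z hz x hx h2 h3 (by linear_combination hcol)
    · exact absurd (h2.trans h1) (lt_asymm h3)
    · exact key z hz y hy x hx h2 h1 (by linear_combination -hcol)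
  · have h1 : S.card * T.card ≤ S.card * (16 * d ^ 3) := Nat.mul_le_mul_left _ hTc
    calc A.card ≤ 2 * d * A0.card := hAf
      _ ≤ 2 * d * (2 * (S.card * (16 * d ^ 3))) := Nat.mul_le_mul_left _ (by omega)
      _ = 64 * d ^ 4 * S.card := by ring

end

end Pool.Agent.Helper13.GP
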