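import Pool.Agent.Helper6.GP.Goals

/-! Project GP, packet NTA: trace of the square of a long lazy law. -/

namespace Pool.Agent.Helper13.GP

open Matrix Equiv Filter Topology Pool.Agent.Helper15.An Pool.Agent.Helper6.GP
open scoped ComplexOrder
open Pool.Agent.Helper3.AK (lazyLaw)
open Pool.Agent.Helper6.W (lazy_pow_posSemidef lazy_pow_le)

theorem trace_wop_re {n D : ℕ} (ρ : Perm (Fin n) →* Matrix (Fin D) (Fin D) ℂ)
    (κ : Perm (Fin n) → ℝ) :
    (trace (wop ρ κ)).re = ∑ g, κ g * (trace (ρ g)).re := by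
  unfold wop
  rw [trace_sum, Complex.re_sum]
  refine Finset.sum_congr rfl fun g _ => ?_
  rw [trace_smul, Complex.real_smul, Complex.re_ofReal_mul]

theorem thm (hlzw : S_LZW) (htgr : S_TGR) (hlaw1 : Pool.Agent.Helper73.LL.S_LAW1) : S_NTA := by
  intro n k t R J z ε hk hε hε1 hn hR hJ hgap hsmall F i hi
  obtain ⟨hw, hsupp, -, hnn, hsum⟩ := hlzw n k (2 * t) z hk
  have hSP := tupW_isSP (by omega : 0 < k) z
  have hb : (0 : ℝ) < 1 - ε / 2 := by linarith
  have hδ0 : (0 : ℝ) ≤ (1 - ε / 2) ^ (2 * t) := by positivity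
  have hkey : ∀ j, ¬ Triv (F.ρ j) (Alt n) → HasFix (F.ρ j) (stab n R) →
      (wop (F.ρ j) (lazyLaw z (2 * t))).PosSemidef ∧
      ((1 - ε / 2) ^ (2 * t) • (1 : Matrix (Fin (F.D j)) (Fin (F.D j)) ℂ) -
        wop (F.ρ j) (lazyLaw z (2 * t))).PosSemidef := by
    intro j hj hf
    rw [hw _ _ (F.irr j).unit]
    have hT := wop_isHermitian (F.ρ j) (F.irr j).unit hSP
    have hT2 := wop_add_one (F.ρ j) (F.irr j).unit hSP
    have hg := htgr n k R (F.D j) z ε hk (by omega) hgap (F.ρ j) (F.irr j) hj hf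
    exact ⟨lazy_pow_posSemidef hT hT2 _, lazy_pow_le hT ε hT2 hg _⟩
  have hn0 : (0 : ℝ) < n := by
    have : 0 < n := by omega
    exact_mod_cast this
  have hD0 : (0 : ℝ) ≤ F.D i := Nat.cast_nonneg _
  set X : ℝ := 2 * (n : ℝ) ^ (12 * J) * (7 / 8) ^ (R + 1) + 1 / 2 ^ J with hX
  have hX0 : 0 ≤ X := by positivity
  have hY0 : (0 : ℝ) ≤ 2 * (20 / (n : ℝ)) ^ R := by positivity
  have hgoal : ((1 - ε / 2) ^ (2 * t) + 2 * (20 / (n : ℝ)) ^ R +
      2 * (n : ℝ) ^ (12 * J) * (7 / 8) ^ (R + 1) + 1 / 2 ^ J) * F.D i =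
      ((1 - ε / 2) ^ (2 * t)) * F.D i + (2 * (20 / (n : ℝ)) ^ R) * F.D i + X * F.D i := by
    rw [hX]; ring
  rw [hgoal]
  by_cases hfix : HasFix (F.ρ i) (stab n R)
  · obtain ⟨-, h2⟩ := hkey i hi hfix
    have h3 : 0 ≤ (trace ((1 - ε / 2) ^ (2 * t) •
        (1 : Matrix (Fin (F.D i)) (Fin (F.D i)) ℂ) - wop (F.ρ i) (lazyLaw z (2 * t)))).re :=
      (Complex.nonneg_iff.1 h2.trace_nonneg).1
    rw [trace_sub, trace_smul, trace_one, Complex.sub_re, Complex.real_smul,
      Complex.re_ofReal_mul, Fintype.card_fin, Complex.natCast_re] at h3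
    have h4 := mul_nonneg hY0 hD0
    have h5 := mul_nonneg hX0 hD0
    linarith
  · set F₀ : ℕ := (n + 9) / 10 with hF₀
    have hlaw := hlaw1 n F (lazyLaw z (2 * t)) R F₀ ((1 - ε / 2) ^ (2 * t)) (by omega) (by omega)
      hnn hsum hsupp hδ0 hsmall hkey
    rw [trace_wop_re]
    have h1 : ∀ g : Perm (Fin n), lazyLaw z (2 * t) g * (trace (F.ρ i g)).re ≤
        lazyLaw z (2 * t) g * (X * F.D i) +
          lazyLaw z (2 * t) g * (if F₀ ≤ fixc g then (1 : ℝ) else 0) * F.D i := by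
      intro g
      have h2 : (trace (F.ρ i g)).re ≤ ‖trace (F.ρ i g)‖ := Complex.re_le_norm _
      have h3 := hnn g
      have h4 : (trace (F.ρ i g)).re ≤ X * F.D i +
          (if F₀ ≤ fixc g then (1 : ℝ) else 0) * F.D i := by
        split_ifs with h5
        · have h6 := Pool.Agent.Helper6.FixK.norm_trace_le (F.irr i).unit g
          have h7 := mul_nonneg hX0 hD0
          linarith
        · have h6 := char_bound_mat (F.ρ i) (F.irr i).unit R hfix hn (by omega) J hJ g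
            (by omega)
          rw [← hX] at h6
          linarith
      calc lazyLaw z (2 * t) g * (trace (F.ρ i g)).re ≤ lazyLaw z (2 * t) g * (X * F.D i +
          (if F₀ ≤ fixc g then (1 : ℝ) else 0) * F.D i) := mul_le_mul_of_nonneg_left h4 h3
        _ = _ := by ring
    have h2 := Finset.sum_le_sum fun g (_ : g ∈ Finset.univ) => h1 g
    rw [Finset.sum_add_distrib, ← Finset.sum_mul, ← Finset.sum_mul, hsum, one_mul] at h2
    have h3 : 2 * (2 / (F₀ : ℝ)) ^ R ≤ 2 * (20 / (n : ℝ)) ^ R := by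
      have h4 : (n : ℝ) ≤ 10 * F₀ := by
        have : n ≤ 10 * F₀ := by omega
        exact_mod_cast this
      have h5 : (0 : ℝ) < F₀ := by linarith
      have h6 : 2 / (F₀ : ℝ) ≤ 20 / n := by
        rw [div_le_div_iff₀ h5 hn0]; linarith
      have h7 := pow_le_pow_left₀ (by positivity) h6 R
      linarith
    have h4 := mul_le_mul_of_nonneg_right (hlaw.trans h3) hD0
    have h5 := mul_nonneg hδ0 hD0
    linarith

end Pool.Agent.Helper13.GP
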