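import Pool.Agent.Helper72.GP.GoalsB

/-!
# Project GP (MP_c9dfb5_co), packet ONES

One step: a large general position subset, or a big residue class.
-/

set_option autoImplicit false

namespace Pool.Agent.Helper13.GP

open Pool.Agent.Helper72.GP
open Finset Polynomial
open scoped Polynomial.Bivariate Classical

noncomputable section

theorem hasGP_mono {P : Finset Pt} {r s : ℝ} (h : HasGP P r) (hs : s ≤ r) : HasGP P s := by
  obtain ⟨S, hS, hG, hr⟩ := h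
  exact ⟨S, hS, hG, hs.trans hr⟩

/-- powers of large numbers are large -/
theorem exists_pow_large (ε K : ℝ) (hε : 0 < ε) :
    ∃ n0 : ℕ, ∀ n : ℕ, n0 ≤ n → K ≤ (n : ℝ) ^ ε := by
  have h := ((tendsto_rpow_atTop hε).comp tendsto_natCast_atTop_atTop).eventually_ge_atTop K
  exact Filter.eventually_atTop.mp h

theorem card_le_box {P : Finset Pt} {N : ℕ} (h : Box N P) : P.card ≤ (N + 1) ^ 2 := by
  have hsub : P ⊆ Icc (0 : ℤ) N ×ˢ Icc (0 : ℤ) N := by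
    intro p hp
    obtain ⟨h1, h2, h3, h4⟩ := h p hp
    exact mem_product.mpr ⟨mem_Icc.mpr ⟨h1, h2⟩, mem_Icc.mpr ⟨h3, h4⟩⟩
  refine (card_le_card hsub).trans ?_
  rw [card_product, Int.card_Icc]
  have : ((N : ℤ) + 1 - 0).toNat = N + 1 := by omega
  rw [this, sq]

/-- PACKET GP-ONES. -/
theorem ones (hLEMA : LEMA) (hKEY : KEY) (hCURV : CURV) : ONES := by
  intro C δ hC hδ hδ'
  obtain ⟨n1, c1, hc1, hA⟩ := hLEMA
  obtain ⟨n2, hK⟩ := hKEY C δ hC hδ hδ'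
  obtain ⟨n3, hCu⟩ := hCURV C δ hC hδ hδ'
  obtain ⟨n4, hn4⟩ := exists_pow_large (1 / 32 - δ / 40) (1 / c1) (by linarith)
  obtain ⟨n5, hn5⟩ := exists_pow_large (δ / 32 - δ / 400 - δ / 40) (2 / c1) (by linarith)
  refine ⟨n1 + n2 + n3 + n4 + n5 + 5, fun P N t hP hB hN hth ht htn => ?_⟩
  set n : ℝ := (P.card : ℝ) with hn
  have hn1 : (1 : ℝ) ≤ n := by
    rw [hn]
    exact_mod_cast (by omega : 1 ≤ P.card)
  have hn0 : (0 : ℝ) < n := by linarith
  have hN2 : 2 ≤ N := by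
    by_contra hcon
    have h1 := card_le_box hB
    have h2 : N + 1 ≤ 2 := by omega
    have h3 : (N + 1) ^ 2 ≤ 2 ^ 2 := Nat.pow_le_pow_left h2 2
    omega
  by_cases hB1 : ∀ h : ℕ, n ^ ((1 : ℝ) / 96) ≤ h → ∀ x ∈ P, ((cls P h x).card : ℝ) ≤ n ^ (1 - δ)
  swap
  · right
    push Not at hB1
    obtain ⟨h, h1, x, hx, h2⟩ := hB1
    exact ⟨h, h1, x, hx, h2⟩
  left
  -- the number `J`
  have hJex : ∃ J : ℕ, 13824 * (C : ℝ) * n ^ (δ / 8) ≤ (2 : ℝ) ^ J := by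
    obtain ⟨J, hJ⟩ := pow_unbounded_of_one_lt (13824 * (C : ℝ) * n ^ (δ / 8)) (by norm_num : (1 : ℝ) < 2)
    exact ⟨J, hJ.le⟩
  obtain ⟨J, hJ1, hJ2⟩ : ∃ J : ℕ, 13824 * (C : ℝ) * n ^ (δ / 8) ≤ (2 : ℝ) ^ J ∧
      (2 : ℝ) ^ J ≤ 27648 * (C : ℝ) * n ^ (δ / 8) := by
    refine ⟨Nat.find hJex, Nat.find_spec hJex, ?_⟩
    have hC1 : (1 : ℝ) ≤ C := by exact_mod_cast hC
    have hp1 : (1 : ℝ) ≤ n ^ (δ / 8) := Real.one_le_rpow hn1 (by linarith)
    rcases Nat.eq_zero_or_pos (Nat.find hJex) with h0 | h0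
    · rw [h0, pow_zero]
      nlinarith
    · have h1 := Nat.find_min hJex (Nat.sub_lt h0 one_pos)
      rw [not_le] at h1
      have h2 : (2 : ℝ) ^ Nat.find hJex = 2 * 2 ^ (Nat.find hJex - 1) := by
        rw [← pow_succ']
        congr 1
        omega
      rw [h2]
      linarith
  by_cases hB2 : ∀ h : ℕ, 1 ≤ h → (h : ℝ) < n ^ ((1 : ℝ) / 96) → ∀ x ∈ P,
      n ^ (1 - δ / 2) ≤ (cls P h x).card → ∀ j ≤ J, FreeAt P N h x (2 ^ j)
  swap
  · push Not at hB2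
    obtain ⟨h, h1, _, x, hx, h2, j, hj, h3⟩ := hB2
    refine hasGP_mono (hCu P N t J (by omega) hB hN2 hth ht htn hJ2 h x j h1 hx h2 hj h3) ?_
    exact Real.rpow_le_rpow_of_exponent_le hn1 (by linarith)
  have hkey := hK P N J (by omega) hB hN2 hN hJ1 hB1 hB2
  -- Lemma A
  set H : ℕ := ⌊n ^ ((1 : ℝ) / 48)⌋₊ with hH
  have hp48 : (1 : ℝ) ≤ n ^ ((1 : ℝ) / 48) := Real.one_le_rpow hn1 (by norm_num)
  have hH1 : 1 ≤ H := Nat.le_floor (by simpa using hp48)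
  have hH2 : (H : ℝ) ≤ n ^ ((1 : ℝ) / 48) := Nat.floor_le (by linarith)
  set T : ℕ := ((P ×ˢ P).filter (fun p => p.1 ≠ p.2 ∧ H < gd p.1 p.2)).card with hT
  have hT2 : (T : ℝ) ≤ n ^ (2 - δ / 16) := by
    refine le_trans ?_ hkey
    rw [hT]
    norm_cast
    refine card_le_card fun p hp => ?_
    rw [mem_filter] at hp ⊢
    refine ⟨hp.1, hp.2.1, ?_⟩
    have h1 : H < gd p.1 p.2 := hp.2.2
    exact (Nat.lt_of_floor_lt h1).le
  have ht8 : (t : ℝ) ≤ n ^ ((1 : ℝ) / 8) :=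
    htn.trans (Real.rpow_le_rpow_of_exponent_le hn1 (by linarith))
  have hgp := hA P N H t T (by omega) (by omega) hB hth ht ht8 hH1 hH2 le_rfl
  refine hasGP_mono hgp ?_
  rw [mul_min_of_nonneg _ _ hc1.le]
  refine le_min ?_ ?_
  · have h1 := hn4 P.card (by omega)
    rw [← hn] at h1
    have h2 : n ^ ((17 : ℝ) / 32) = n ^ (1 / 2 + δ / 40) * n ^ (1 / 32 - δ / 40) := by
      rw [← Real.rpow_add hn0]
      congr 1
      ring
    have h3 : (1 : ℝ) ≤ c1 * n ^ (1 / 32 - δ / 40) := by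
      rw [div_le_iff₀ hc1] at h1
      linarith
    have h4 : (0 : ℝ) < n ^ (1 / 2 + δ / 40) := Real.rpow_pos_of_pos hn0 _
    rw [h2]
    nlinarith
  · have h1 := hn5 P.card (by omega)
    rw [← hn] at h1
    have h4 : (0 : ℝ) < n ^ (1 / 2 + δ / 40) := Real.rpow_pos_of_pos hn0 _
    -- bound of the denominator
    have htT : (t : ℝ) * T + 1 ≤ 4 * n ^ (2 - δ / 16 + δ / 200) := by
      have h5 : (t : ℝ) * T ≤ n ^ (δ / 200) * n ^ (2 - δ / 16) :=
        mul_le_mul htn hT2 (by positivity) (by positivity)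
      rw [← Real.rpow_add hn0] at h5
      have h6 : (1 : ℝ) ≤ n ^ (2 - δ / 16 + δ / 200) := Real.one_le_rpow hn1 (by linarith)
      have h7 : δ / 200 + (2 - δ / 16) = 2 - δ / 16 + δ / 200 := by ring
      rw [h7] at h5
      linarith
    have hsq : ((t : ℝ) * T + 1) ^ ((1 : ℝ) / 2) ≤ 2 * n ^ (1 - δ / 32 + δ / 400) := by
      have h5 : ((t : ℝ) * T + 1) ^ ((1 : ℝ) / 2) ≤
          (4 * n ^ (2 - δ / 16 + δ / 200)) ^ ((1 : ℝ) / 2) :=
        Real.rpow_le_rpow (by positivity) htT (by norm_num)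
      refine h5.trans (le_of_eq ?_)
      rw [Real.mul_rpow (by norm_num) (by positivity), ← Real.rpow_mul hn0.le]
      have h6 : (4 : ℝ) ^ ((1 : ℝ) / 2) = 2 := by
        rw [show (4 : ℝ) = 2 ^ (2 : ℝ) by norm_num, ← Real.rpow_mul (by norm_num)]
        norm_num
      rw [h6]
      congr 2
      ring
    have hpos : (0 : ℝ) < ((t : ℝ) * T + 1) ^ ((1 : ℝ) / 2) := by positivity
    have h8 : n ^ ((3 : ℝ) / 2) = n ^ (1 / 2 + δ / 40) * n ^ (δ / 32 - δ / 400 - δ / 40) *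
        n ^ (1 - δ / 32 + δ / 400) := by
      rw [← Real.rpow_add hn0, ← Real.rpow_add hn0]
      congr 1
      ring
    rw [← mul_div_assoc, le_div_iff₀ hpos]
    have h9 : (0 : ℝ) < n ^ (1 - δ / 32 + δ / 400) := Real.rpow_pos_of_pos hn0 _
    calc n ^ (1 / 2 + δ / 40) * ((t : ℝ) * T + 1) ^ ((1 : ℝ) / 2)
        ≤ n ^ (1 / 2 + δ / 40) * (2 * n ^ (1 - δ / 32 + δ / 400)) :=
          mul_le_mul_of_nonneg_left hsq h4.le
      _ = n ^ (1 / 2 + δ / 40) * n ^ (1 - δ / 32 + δ / 400) * 2 := by ring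
      _ ≤ n ^ (1 / 2 + δ / 40) * n ^ (1 - δ / 32 + δ / 400) *
          (c1 * n ^ (δ / 32 - δ / 400 - δ / 40)) := by
          refine mul_le_mul_of_nonneg_left ?_ (by positivity)
          rw [div_le_iff₀ hc1] at h1
          linarith
      _ = c1 * n ^ ((3 : ℝ) / 2) := by
          rw [h8]
          ring

end

end Pool.Agent.Helper13.GP
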