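import Pool.Agent.Helper89.GP.GoalsB

/-!
# The XYZ inequality for maps

Shepp's coordinates: `g y = - f y` and `g a = f a - f y` for `a ≠ y`. In these coordinates the strict
maps are a sublattice and the two events are up-sets.
-/

namespace Pool.Agent.Helper13.GP

open Finset Pool.Agent.Helper89.GP
open scoped FinsetFamily

variable {n : ℕ}

/-- Shepp's coordinates. -/
def Ph (N : ℕ) (y : Fin n) (f : Fin n → Fin N) : Fin n → ℤ := fun a =>
  if a = y then -((f y : ℕ) : ℤ) else ((f a : ℕ) : ℤ) - ((f y : ℕ) : ℤ)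

/-- The inverse. -/
def Ps (y : Fin n) (g : Fin n → ℤ) : Fin n → ℤ := fun a => if a = y then -g y else g a - g y

theorem Ps_Ph (N : ℕ) (y : Fin n) (f : Fin n → Fin N) (a : Fin n) :
    Ps y (Ph N y f) a = ((f a : ℕ) : ℤ) := by
  unfold Ps Ph
  by_cases h : a = y
  · subst h; simp
  · simp [h]

theorem Ph_inj (N : ℕ) (y : Fin n) : Function.Injective (Ph N y) := by
  intro f f' h
  funext a
  have h1 := Ps_Ph N y f a
  rw [h, Ps_Ph] at h1
  exact Fin.ext (by exact_mod_cast h1.symm)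

/-- The set in the new coordinates. -/
def Good (R : Fin n → Fin n → Prop) (N : ℕ) (y : Fin n) (g : Fin n → ℤ) : Prop :=
  (∀ a, 0 ≤ Ps y g a ∧ Ps y g a < N) ∧ ∀ a b, R a b → Ps y g a < Ps y g b

theorem good_Ph {R : Fin n → Fin n → Prop} {N : ℕ} {y : Fin n} {f : Fin n → Fin N}
    (h : ∀ a b, R a b → f a < f b) : Good R N y (Ph N y f) := by
  constructor
  · intro a
    rw [Ps_Ph]
    exact ⟨by positivity, by exact_mod_cast (f a).isLt⟩
  · intro a b hab
    rw [Ps_Ph, Ps_Ph]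
    exact_mod_cast h a b hab

theorem exists_of_good {R : Fin n → Fin n → Prop} {N : ℕ} {y : Fin n} {g : Fin n → ℤ}
    (h : Good R N y g) : ∃ f : Fin n → Fin N, (∀ a b, R a b → f a < f b) ∧ Ph N y f = g := by
  have h1 : ∀ a, ∃ i : Fin N, ((i : ℕ) : ℤ) = Ps y g a := by
    intro a
    obtain ⟨h2, h3⟩ := h.1 a
    refine ⟨⟨(Ps y g a).toNat, by omega⟩, ?_⟩
    simp [h2]
  choose f hf using h1
  refine ⟨f, ?_, ?_⟩
  · intro a b hab
    have := h.2 a b hab
    rw [← hf, ← hf] at this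
    exact_mod_cast this
  · funext a
    unfold Ph
    rw [hf, hf]
    unfold Ps
    by_cases h2 : a = y
    · subst h2; simp
    · simp [h2]

theorem good_inf {R : Fin n → Fin n → Prop} {N : ℕ} {y : Fin n} {g g' : Fin n → ℤ}
    (h : Good R N y g) (h' : Good R N y g') : Good R N y (g ⊓ g') := by
  have hy := h.1 y
  have hy' := h'.1 y
  simp only [Ps, if_true] at hy hy'
  constructor
  · intro a
    have h1 := h.1 a
    have h2 := h'.1 a
    simp only [Ps, Pi.inf_apply] at h1 h2 ⊢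
    split_ifs at h1 h2 ⊢ <;> omega
  · intro a b hab
    have h1 := h.2 a b hab
    have h2 := h'.2 a b hab
    simp only [Ps, Pi.inf_apply] at h1 h2 ⊢
    split_ifs at h1 h2 ⊢ <;> omega

theorem good_sup {R : Fin n → Fin n → Prop} {N : ℕ} {y : Fin n} {g g' : Fin n → ℤ}
    (h : Good R N y g) (h' : Good R N y g') : Good R N y (g ⊔ g') := by
  have hy := h.1 y
  have hy' := h'.1 y
  simp only [Ps, if_true] at hy hy'
  constructor
  · intro a
    have h1 := h.1 a
    have h2 := h'.1 a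
    simp only [Ps, Pi.sup_apply] at h1 h2 ⊢
    split_ifs at h1 h2 ⊢ <;> omega
  · intro a b hab
    have h1 := h.2 a b hab
    have h2 := h'.2 a b hab
    simp only [Ps, Pi.sup_apply] at h1 h2 ⊢
    split_ifs at h1 h2 ⊢ <;> omega

theorem Ph_neg {N : ℕ} {y x : Fin n} (hx : x ≠ y) (f : Fin n → Fin N) :
    Ph N y f x < 0 ↔ f x < f y := by
  unfold Ph
  rw [if_neg hx, sub_neg]
  exact_mod_cast Iff.rfl

theorem xyf : XyfStmt := by
  classical
  intro n R x y z N hx hz
  obtain ⟨S, hSm, hS⟩ : ∃ S : ((Fin n → Fin N) → Prop) → Finset (Fin n → Fin N),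
      (∀ p f, f ∈ S p ↔ (∀ a b, R a b → f a < f b) ∧ p f) ∧
      ∀ p, Sm R N p = ((S p).image (Ph N y)).card := by
    refine ⟨fun p => univ.filter fun f : Fin n → Fin N => (∀ a b, R a b → f a < f b) ∧ p f,
      ?_, ?_⟩
    · intro p f
      simp
    · intro p
      rw [Finset.card_image_of_injective _ (Ph_inj N y)]
      unfold Sm
      congr
  rw [hS, hS, hS, hS]
  refine le_trans (Finset.le_card_infs_mul_card_sups _ _) ?_
  apply Nat.mul_le_mul
  · apply Finset.card_le_card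
    intro g hg
    rw [Finset.mem_infs] at hg
    obtain ⟨g1, hg1, g2, hg2, rfl⟩ := hg
    rw [Finset.mem_image] at hg1 hg2 ⊢
    obtain ⟨f1, hf1, rfl⟩ := hg1
    obtain ⟨f2, hf2, rfl⟩ := hg2
    rw [hSm] at hf1 hf2
    obtain ⟨f, hf, hfe⟩ := exists_of_good
      (good_inf (good_Ph (y := y) hf1.1) (good_Ph (y := y) hf2.1))
    refine ⟨f, ?_, hfe⟩
    rw [hSm]
    refine ⟨hf, ?_, ?_⟩
    · rw [← Ph_neg hx, hfe, Pi.inf_apply]
      exact lt_of_le_of_lt inf_le_left ((Ph_neg hx f1).2 hf1.2.1)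
    · rw [← Ph_neg hz, hfe, Pi.inf_apply]
      exact lt_of_le_of_lt inf_le_right ((Ph_neg hz f2).2 hf2.2.2)
  · apply Finset.card_le_card
    intro g hg
    rw [Finset.mem_sups] at hg
    obtain ⟨g1, hg1, g2, hg2, rfl⟩ := hg
    rw [Finset.mem_image] at hg1 hg2 ⊢
    obtain ⟨f1, hf1, rfl⟩ := hg1
    obtain ⟨f2, hf2, rfl⟩ := hg2
    rw [hSm] at hf1 hf2
    obtain ⟨f, hf, hfe⟩ := exists_of_good
      (good_sup (good_Ph (y := y) hf1.1) (good_Ph (y := y) hf2.1))
    refine ⟨f, ?_, hfe⟩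
    rw [hSm]
    refine ⟨hf, ?_, ?_⟩
    · rw [← Ph_neg hx, hfe, Pi.sup_apply]
      intro h
      exact hf2.2.1 ((Ph_neg hx f2).1 (lt_of_le_of_lt le_sup_right h))
    · rw [← Ph_neg hz, hfe, Pi.sup_apply]
      intro h
      exact hf1.2.2 ((Ph_neg hz f1).1 (lt_of_le_of_lt le_sup_left h))

end Pool.Agent.Helper13.GP
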